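import Mathlib

set_option autoImplicit false
set_option linter.unusedSectionVars false

namespace Pool.Agent.Results.MP_a4cf75_mp.NotMonotone

open Matrix MeasureTheory
open scoped Kronecker

section Haar

variable (n : Type) [Fintype n] [DecidableEq n]

/-- the unitary group carries its Borel sigma-algebra -/
noncomputable instance : MeasurableSpace (unitaryGroup n ℂ) := borel _

instance : BorelSpace (unitaryGroup n ℂ) := ⟨rfl⟩

lemma entry_norm_le (V : unitaryGroup n ℂ) (i j : n) : ‖(V : Matrix n n ℂ) i j‖ ≤ 1 :=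
  entry_norm_bound_of_unitary V.2 i j

instance : CompactSpace (unitaryGroup n ℂ) := by
  suffices h : IsCompact ((unitaryGroup n ℂ : Submonoid (Matrix n n ℂ)) : Set (Matrix n n ℂ)) from
    isCompact_iff_compactSpace.mp h
  have h1 : IsCompact (Set.univ.pi fun _ : n => Set.univ.pi fun _ : n => Metric.closedBall (0 : ℂ) 1) :=
    isCompact_univ_pi fun _ => isCompact_univ_pi fun _ => isCompact_closedBall _ _
  refine h1.of_isClosed_subset ?_ ?_
  · have : ((unitaryGroup n ℂ : Submonoid (Matrix n n ℂ)) : Set (Matrix n n ℂ))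
        = {A | star A * A = 1} ∩ {A | A * star A = 1} := by
      ext A
      exact Unitary.mem_iff
    rw [this]
    exact (isClosed_eq (by fun_prop) (by fun_prop)).inter (isClosed_eq (by fun_prop) (by fun_prop))
  · intro A hA i _ j _
    rw [mem_closedBall_zero_iff]
    exact entry_norm_bound_of_unitary hA i j

/-- the Haar probability measure of the unitary group -/
noncomputable def haar : Measure (unitaryGroup n ℂ) := Measure.haarMeasure ⊤

instance : IsProbabilityMeasure (haar n) := ⟨Measure.haarMeasure_self⟩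

instance : (haar n).IsMulLeftInvariant := inferInstanceAs (Measure.haarMeasure ⊤).IsMulLeftInvariant

end Haar

section Defs

variable {d dE : ℕ} [NeZero dE]

/-- partial trace over the environment -/
def ptrace (Z : Matrix (Fin d × Fin dE) (Fin d × Fin dE) ℂ) : Matrix (Fin d) (Fin d) ℂ :=
  Matrix.of fun i j => ∑ e, Z (i, e) (j, e)

/-- the channel `X ↦ Tr_E [V (X ⊗ |0⟩⟨0|) V†]` -/
noncomputable def chan (V : unitaryGroup (Fin d × Fin dE) ℂ) (X : Matrix (Fin d) (Fin d) ℂ) :
    Matrix (Fin d) (Fin d) ℂ :=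
  ptrace ((V : Matrix (Fin d × Fin dE) (Fin d × Fin dE) ℂ) * (X ⊗ₖ single 0 0 1) *
    (V : Matrix (Fin d × Fin dE) (Fin d × Fin dE) ℂ)ᴴ)

variable (d dE)

/-- The matrix of the `t`-th moment operator `E_V (Φ_V)^{⊗t}` of the ensemble cHaar`(d, dE)` in the
orthonormal basis of the matrix units `E_{k₁l₁} ⊗ ⋯ ⊗ E_{k_t l_t}` of `M_{d^t}`. -/
noncomputable def momentMatrix (t : ℕ) :
    Matrix ((Fin t → Fin d) × (Fin t → Fin d)) ((Fin t → Fin d) × (Fin t → Fin d)) ℂ :=
  Matrix.of fun p q =>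
    ∫ V : unitaryGroup (Fin d × Fin dE) ℂ,
      ∏ s, chan V (single (q.1 s) (q.2 s) 1) (p.1 s) (p.2 s) ∂(haar (Fin d × Fin dE))

/-- `N_{t,k}(d, dE)`, the squared Hilbert-Schmidt norm of the `k`-th power of the moment
operator -/
noncomputable def N (t k : ℕ) : ℝ := ∑ p, ∑ q, ‖(momentMatrix d dE t ^ k) p q‖ ^ 2

end Defs

section Twirl

variable {n : Type} [Fintype n] [DecidableEq n]

/-- the swap operator -/
def swap : Matrix (n × n) (n × n) ℂ := Matrix.of fun p q => if p.1 = q.2 ∧ p.2 = q.1 then 1 else 0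

/-- `(V ⊗ V) Y (V ⊗ V)†` -/
noncomputable def conj2 (V : Matrix n n ℂ) (Y : Matrix (n × n) (n × n) ℂ) : Matrix (n × n) (n × n) ℂ :=
  (V ⊗ₖ V) * Y * (V ⊗ₖ V)ᴴ

lemma conj2_mul (U V : Matrix n n ℂ) (Y : Matrix (n × n) (n × n) ℂ) :
    conj2 (U * V) Y = conj2 U (conj2 V Y) := by
  simp only [conj2]
  rw [Matrix.mul_kronecker_mul, conjTranspose_mul]
  simp only [Matrix.mul_assoc]

lemma continuous_conj2 (Y : Matrix (n × n) (n × n) ℂ) :
    Continuous fun V : unitaryGroup n ℂ => conj2 (V : Matrix n n ℂ) Y := by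
  have h : Continuous fun V : unitaryGroup n ℂ => ((V : Matrix n n ℂ) ⊗ₖ (V : Matrix n n ℂ)) := by
    apply continuous_matrix
    intro i j
    simp only [kroneckerMap_apply]
    exact ((continuous_subtype_val.matrix_elem _ _).mul (continuous_subtype_val.matrix_elem _ _))
  exact (h.matrix_mul continuous_const).matrix_mul h.matrix_conjTranspose

lemma integrable_of_continuous {f : unitaryGroup n ℂ → ℂ} (hf : Continuous f) :
    Integrable f (haar n) :=
  hf.integrable_of_hasCompactSupport (HasCompactSupport.of_compactSpace f)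

/-- the average of `(V ⊗ V) Y (V ⊗ V)†` -/
noncomputable def twirl (Y : Matrix (n × n) (n × n) ℂ) : Matrix (n × n) (n × n) ℂ :=
  Matrix.of fun p q => ∫ V : unitaryGroup n ℂ, conj2 (V : Matrix n n ℂ) Y p q ∂(haar n)

lemma integrable_conj2 (Y : Matrix (n × n) (n × n) ℂ) (p q : n × n) :
    Integrable (fun V : unitaryGroup n ℂ => conj2 (V : Matrix n n ℂ) Y p q) (haar n) :=
  integrable_of_continuous ((continuous_conj2 Y).matrix_elem p q)

lemma conj2_twirl (U : unitaryGroup n ℂ) (Y : Matrix (n × n) (n × n) ℂ) :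
    conj2 (U : Matrix n n ℂ) (twirl Y) = twirl Y := by
  ext p q
  have h1 : ∫ V : unitaryGroup n ℂ, conj2 ((U * V : unitaryGroup n ℂ) : Matrix n n ℂ) Y p q ∂(haar n)
      = twirl Y p q :=
    integral_mul_left_eq_self (fun V : unitaryGroup n ℂ => conj2 (V : Matrix n n ℂ) Y p q) U
  rw [← h1]
  have h2 : ∀ V : unitaryGroup n ℂ, conj2 ((U * V : unitaryGroup n ℂ) : Matrix n n ℂ) Y p q
      = ∑ s, (∑ r, ((U : Matrix n n ℂ) ⊗ₖ (U : Matrix n n ℂ)) p r * conj2 (V : Matrix n n ℂ) Y r s) *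
        ((U : Matrix n n ℂ) ⊗ₖ (U : Matrix n n ℂ))ᴴ s q := by
    intro V
    have : ((U * V : unitaryGroup n ℂ) : Matrix n n ℂ) = (U : Matrix n n ℂ) * (V : Matrix n n ℂ) := rfl
    rw [this, conj2_mul]
    rw [conj2, Matrix.mul_apply]
    simp only [Matrix.mul_apply]
  simp only [h2]
  rw [integral_finsetSum]
  · rw [conj2, Matrix.mul_apply]
    refine Finset.sum_congr rfl fun s _ => ?_
    rw [integral_mul_const, integral_finsetSum, Matrix.mul_apply]
    · congr 1
      refine Finset.sum_congr rfl fun r _ => ?_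
      rw [integral_const_mul]
      rfl
    · intro r _
      exact (integrable_conj2 Y r s).const_mul _
  · intro s _
    exact (integrable_finsetSum _ fun r _ => (integrable_conj2 Y r s).const_mul _).mul_const _

/-- operators commuting with all `U ⊗ U` -/
def Commutes (A : Matrix (n × n) (n × n) ℂ) : Prop :=
  ∀ U : Matrix n n ℂ, U ∈ unitaryGroup n ℂ → (U ⊗ₖ U) * A = A * (U ⊗ₖ U)

lemma commutes_twirl (Y : Matrix (n × n) (n × n) ℂ) : Commutes (twirl Y) := by
  intro U hU
  have h := conj2_twirl ⟨U, hU⟩ Y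
  have h1 : (U ⊗ₖ U)ᴴ * (U ⊗ₖ U) = 1 := by
    rw [conjTranspose_kronecker, ← Matrix.mul_kronecker_mul, ← star_eq_conjTranspose,
      (mem_unitaryGroup_iff'.mp hU), one_kronecker_one]
  conv_rhs => rw [← h]
  simp only [conj2]
  rw [Matrix.mul_assoc _ _ (U ⊗ₖ U), h1, Matrix.mul_one]

variable {A : Matrix (n × n) (n × n) ℂ}

lemma diag_relation (hA : Commutes A) (u : n → ℂ) (hu : ∀ i, u i * star (u i) = 1) (i j k l : n) :
    u i * u j * A (i, j) (k, l) = A (i, j) (k, l) * (u k * u l) := by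
  have hU : diagonal u ∈ unitaryGroup n ℂ := by
    rw [mem_unitaryGroup_iff, star_eq_conjTranspose, diagonal_conjTranspose, diagonal_mul_diagonal]
    rw [show (fun i => u i * star u i) = fun _ => 1 from funext hu]
    exact diagonal_one
  have h := congrFun (congrFun (hA _ hU) (i, j)) (k, l)
  rw [diagonal_kronecker_diagonal, diagonal_mul, mul_diagonal] at h
  exact h

lemma perm_relation (hA : Commutes A) (σ : Equiv.Perm n) (i j k l : n) :
    A (σ i, σ j) (σ k, σ l) = A (i, j) (k, l) := by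
  set P : Matrix n n ℂ := Matrix.of fun i j => if σ i = j then 1 else 0 with hP
  have hU : P ∈ unitaryGroup n ℂ := by
    rw [mem_unitaryGroup_iff, star_eq_conjTranspose]
    ext a b
    simp only [Matrix.mul_apply, hP, Matrix.of_apply, conjTranspose_apply, Matrix.one_apply]
    rw [Finset.sum_eq_single (σ a)]
    · by_cases h : a = b
      · simp [h]
      · have : σ b ≠ σ a := fun h' => h (σ.injective h').symm
        simp [h, this]
    · intro c _ hc
      simp [hc.symm]
    · simp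
  have h := congrFun (congrFun (hA _ hU) (i, j)) (σ k, σ l)
  rw [Matrix.mul_apply, Matrix.mul_apply, Finset.sum_eq_single (σ i, σ j),
    Finset.sum_eq_single (k, l)] at h
  · simpa [hP, kroneckerMap_apply] using h
  · rintro ⟨a, b⟩ _ hab
    simp only [hP, kroneckerMap_apply, Matrix.of_apply]
    by_cases h1 : σ a = σ k
    · by_cases h2 : σ b = σ l
      · exact absurd (Prod.ext (σ.injective h1) (σ.injective h2)) hab
      · simp [h2]
    · simp [h1]
  · simp
  · rintro ⟨a, b⟩ _ hab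
    simp only [hP, kroneckerMap_apply, Matrix.of_apply]
    by_cases h1 : σ i = a
    · by_cases h2 : σ j = b
      · exact absurd (Prod.ext h1.symm h2.symm) hab
      · simp [h2]
    · simp [h1]
  · simp

/-- off-diagonal entries vanish -/
lemma sparse (hA : Commutes A) (i j k l : n) (h1 : ¬(i = k ∧ j = l)) (h2 : ¬(i = l ∧ j = k)) :
    A (i, j) (k, l) = 0 := by
  by_contra hne
  have hcount : ∀ a : n, (if i = a then 1 else 0) + (if j = a then 1 else 0)
      = ((if k = a then 1 else 0) + (if l = a then 1 else 0) : ℕ) := by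
    intro a
    have key := diag_relation hA (fun x : n => if x = a then Complex.I else 1) (by
      intro x
      by_cases hx : x = a
      · simp [hx]
      · simp [hx]) i j k l
    have key2 : (if i = a then Complex.I else 1) * (if j = a then Complex.I else 1)
        = (if k = a then Complex.I else 1) * (if l = a then Complex.I else 1) := by
      apply mul_right_cancel₀ hne
      rw [key]
      ring
    split_ifs at key2 ⊢ <;> simp [Complex.ext_iff] at key2 ⊢ <;> norm_num at key2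
  have hi := hcount i
  have hj := hcount j
  by_cases e1 : i = k
  · subst e1
    by_cases e2 : j = l
    · exact h1 ⟨rfl, e2⟩
    · simp only [if_true, if_neg (Ne.symm e2)] at hi hj
      split_ifs at hj <;> omega
  · by_cases e2 : i = l
    · subst e2
      by_cases e3 : j = k
      · exact h2 ⟨rfl, e3⟩
      · simp only [if_true, if_neg (Ne.symm e3)] at hi hj
        split_ifs at hj <;> omega
    · simp only [if_true, if_neg (Ne.symm e1), if_neg (Ne.symm e2)] at hi
      split_ifs at hi <;> omega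

lemma rotation_relation (hA : Commutes A) {p q : n} (hpq : p ≠ q) :
    A (p, p) (p, p) = A (p, q) (p, q) + A (q, p) (p, q) := by
  set x : n → ℂ := fun i => if i = p then 1 else if i = q then -2 else 0 with hx
  set R : Matrix n n ℂ := 1 - (2 / 5 : ℂ) • vecMulVec x x with hR
  have hxx : x ⬝ᵥ x = 5 := by
    rw [dotProduct, Finset.sum_eq_add p q hpq]
    · simp [hx, hpq.symm]; norm_num
    · intro c _ hc
      simp [hx, hc.1, hc.2]
    · simp
    · simp
  have hU : R ∈ unitaryGroup n ℂ := by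
    rw [mem_unitaryGroup_iff, star_eq_conjTranspose]
    have hsx : star x = x := by
      ext i
      simp only [hx, Pi.star_apply]
      split_ifs <;> simp
    have hRs : Rᴴ = R := by
      rw [hR, conjTranspose_sub, conjTranspose_one, conjTranspose_smul, conjTranspose_vecMulVec, hsx]
      congr 2
      simp
    have hxx2 : vecMulVec x x * vecMulVec x x = (5 : ℂ) • vecMulVec x x := by
      rw [vecMulVec_mul_vecMulVec, hxx]
      ext i j
      simp only [vecMulVec_apply, Matrix.smul_apply, Pi.smul_apply, smul_eq_mul]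
      ring
    rw [hRs, hR]
    simp only [Matrix.sub_mul, Matrix.mul_sub, Matrix.smul_mul, Matrix.mul_smul, hxx2,
      Matrix.mul_one, Matrix.one_mul]
    module
  have e1 : R p p = 3 / 5 := by
    simp [hR, hx, vecMulVec_apply]; norm_num
  have e2 : R p q = 4 / 5 := by
    simp [hR, hx, vecMulVec_apply, hpq, hpq.symm]; norm_num
  have h := congrFun (congrFun (hA _ hU) (p, p)) (p, q)
  rw [Matrix.mul_apply, Matrix.mul_apply, Finset.sum_eq_add (p, q) (q, p),
    Finset.sum_eq_single (p, p)] at h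
  · simp only [kroneckerMap_apply, e1, e2] at h
    linear_combination (-25 / 12 : ℂ) * h
  · rintro ⟨a, b⟩ _ hab
    rw [sparse hA p p a b, zero_mul]
    · rintro ⟨rfl, rfl⟩; exact hab rfl
    · rintro ⟨rfl, rfl⟩; exact hab rfl
  · simp
  · intro h'
    exact hpq (congrArg Prod.fst h')
  · rintro ⟨a, b⟩ _ ⟨hab1, hab2⟩
    rw [sparse hA a b p q, mul_zero]
    · rintro ⟨rfl, rfl⟩; exact hab1 rfl
    · rintro ⟨rfl, rfl⟩; exact hab2 rfl
  · simp
  · simp

lemma exists_perm {p q i j : n} (hpq : p ≠ q) (hij : i ≠ j) : ∃ σ : Equiv.Perm n, σ p = i ∧ σ q = j := by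
  refine ⟨(Equiv.swap p i).trans (Equiv.swap (Equiv.swap p i q) j), ?_, ?_⟩
  · rw [Equiv.trans_apply, Equiv.swap_apply_left]
    apply Equiv.swap_apply_of_ne_of_ne
    · intro h
      have : Equiv.swap p i q = Equiv.swap p i p := by rw [Equiv.swap_apply_left]; exact h.symm
      exact hpq ((Equiv.swap p i).injective this).symm
    · exact hij
  · rw [Equiv.trans_apply, Equiv.swap_apply_left]

/-- the commutant of the `U ⊗ U` -/
lemma commutant (hA : Commutes A) {p q : n} (hpq : p ≠ q) :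
    A = A (p, q) (p, q) • (1 : Matrix (n × n) (n × n) ℂ) + A (p, q) (q, p) • swap := by
  have hsym : A (q, p) (p, q) = A (p, q) (q, p) := by
    have := perm_relation hA (Equiv.swap p q) p q q p
    simpa using this
  have hα : ∀ i j, i ≠ j → A (i, j) (i, j) = A (p, q) (p, q) := by
    intro i j hij
    obtain ⟨σ, rfl, rfl⟩ := exists_perm hpq hij
    exact perm_relation hA σ p q p q
  have hβ : ∀ i j, i ≠ j → A (i, j) (j, i) = A (p, q) (q, p) := by
    intro i j hij
    obtain ⟨σ, rfl, rfl⟩ := exists_perm hpq hij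
    exact perm_relation hA σ p q q p
  have hγ : ∀ i, A (i, i) (i, i) = A (p, q) (p, q) + A (p, q) (q, p) := by
    intro i
    obtain ⟨j, hj⟩ : ∃ j, i ≠ j := by
      by_cases h : i = p
      · exact ⟨q, by rw [h]; exact hpq⟩
      · exact ⟨p, h⟩
    rw [rotation_relation hA hj, hα i j hj, hβ j i hj.symm]
  ext ⟨i, j⟩ ⟨k, l⟩
  simp only [Matrix.add_apply, Matrix.smul_apply, Matrix.one_apply, swap, Matrix.of_apply,
    Prod.mk.injEq, smul_eq_mul]
  by_cases h1 : i = k ∧ j = l
  · obtain ⟨rfl, rfl⟩ := h1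
    by_cases hij : i = j
    · subst hij
      simp [hγ]
    · have : ¬(i = j ∧ j = i) := fun h => hij h.1
      simp [hα i j hij, this]
  · by_cases h2 : i = l ∧ j = k
    · obtain ⟨rfl, rfl⟩ := h2
      have hij : i ≠ j := fun h => h1 ⟨h, h.symm⟩
      simp [h1, hβ i j hij]
    · simp [h1, h2, sparse hA i j k l h1 h2]

lemma trace_conj2 (V : unitaryGroup n ℂ) (Y : Matrix (n × n) (n × n) ℂ) :
    (conj2 (V : Matrix n n ℂ) Y).trace = Y.trace := by
  have h1 : ((V : Matrix n n ℂ) ⊗ₖ (V : Matrix n n ℂ))ᴴ * ((V : Matrix n n ℂ) ⊗ₖ (V : Matrix n n ℂ)) = 1 := by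
    rw [conjTranspose_kronecker, ← Matrix.mul_kronecker_mul, ← star_eq_conjTranspose,
      (mem_unitaryGroup_iff'.mp V.2), one_kronecker_one]
  rw [conj2, trace_mul_comm, ← Matrix.mul_assoc, h1, Matrix.one_mul]

lemma swap_mul_kron (V : Matrix n n ℂ) : swap * (V ⊗ₖ V) = (V ⊗ₖ V) * swap := by
  ext ⟨i, j⟩ ⟨k, l⟩
  rw [Matrix.mul_apply, Matrix.mul_apply, Finset.sum_eq_single (j, i), Finset.sum_eq_single (l, k)]
  · simp [swap, kroneckerMap_apply, mul_comm]
  · rintro ⟨a, b⟩ _ hab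
    have : ¬(a = l ∧ b = k) := fun h => hab (Prod.ext h.1 h.2)
    simp [swap, this]
  · simp
  · rintro ⟨a, b⟩ _ hab
    have : ¬(i = b ∧ j = a) := fun h => hab (Prod.ext h.2.symm h.1.symm)
    simp [swap, this]
  · simp

lemma trace_swap_conj2 (V : unitaryGroup n ℂ) (Y : Matrix (n × n) (n × n) ℂ) :
    (swap * conj2 (V : Matrix n n ℂ) Y).trace = (swap * Y).trace := by
  have h1 : ((V : Matrix n n ℂ) ⊗ₖ (V : Matrix n n ℂ))ᴴ * ((V : Matrix n n ℂ) ⊗ₖ (V : Matrix n n ℂ)) = 1 := by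
    rw [conjTranspose_kronecker, ← Matrix.mul_kronecker_mul, ← star_eq_conjTranspose,
      (mem_unitaryGroup_iff'.mp V.2), one_kronecker_one]
  rw [conj2, ← Matrix.mul_assoc, ← Matrix.mul_assoc, swap_mul_kron, trace_mul_comm,
    ← Matrix.mul_assoc, ← Matrix.mul_assoc, h1, Matrix.one_mul]

lemma trace_twirl (Y : Matrix (n × n) (n × n) ℂ) : (twirl Y).trace = Y.trace := by
  have h : (twirl Y).trace = ∫ V : unitaryGroup n ℂ, (conj2 (V : Matrix n n ℂ) Y).trace ∂(haar n) := by
    simp only [Matrix.trace, Matrix.diag, twirl, Matrix.of_apply]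
    rw [integral_finsetSum _ fun p _ => integrable_conj2 Y p p]
  rw [h]
  simp only [trace_conj2]
  simp

lemma swap_mul_apply (Y : Matrix (n × n) (n × n) ℂ) (i j : n) (q : n × n) :
    (swap * Y : Matrix (n × n) (n × n) ℂ) (i, j) q = Y (j, i) q := by
  rw [Matrix.mul_apply, Finset.sum_eq_single (j, i)]
  · simp [swap]
  · rintro ⟨a, b⟩ _ hab
    have : ¬(i = b ∧ j = a) := fun h => hab (Prod.ext h.2.symm h.1.symm)
    simp [swap, this]
  · simp

lemma trace_swap_mul (Y : Matrix (n × n) (n × n) ℂ) :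
    (swap * Y : Matrix (n × n) (n × n) ℂ).trace = ∑ x : n × n, Y (x.2, x.1) x :=
  Finset.sum_congr rfl fun x _ => swap_mul_apply Y x.1 x.2 x

lemma trace_swap_twirl (Y : Matrix (n × n) (n × n) ℂ) :
    (swap * twirl Y : Matrix (n × n) (n × n) ℂ).trace = (swap * Y : Matrix (n × n) (n × n) ℂ).trace := by
  have h : (swap * twirl Y : Matrix (n × n) (n × n) ℂ).trace
      = ∫ V : unitaryGroup n ℂ, (swap * conj2 (V : Matrix n n ℂ) Y : Matrix (n × n) (n × n) ℂ).trace
        ∂(haar n) := by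
    simp only [trace_swap_mul, twirl, Matrix.of_apply]
    rw [integral_finsetSum _ fun x _ => integrable_conj2 Y (x.2, x.1) x]
  rw [h]
  simp only [trace_swap_conj2]
  simp

lemma trace_swap : (swap : Matrix (n × n) (n × n) ℂ).trace = Fintype.card n := by
  simp only [Matrix.trace, Matrix.diag, swap, Matrix.of_apply, Fintype.sum_prod_type]
  have : ∀ x y : n, (if x = y ∧ y = x then (1 : ℂ) else 0) = if x = y then 1 else 0 := by
    intro x y
    by_cases h : x = y
    · simp [h]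
    · simp [h]
  simp [this]

lemma swap_mul_swap : (swap : Matrix (n × n) (n × n) ℂ) * swap = 1 := by
  ext ⟨i, j⟩ ⟨k, l⟩
  rw [swap_mul_apply]
  simp only [swap, Matrix.of_apply, Matrix.one_apply, Prod.mk.injEq]
  congr 1
  rw [and_comm]

/-- the average of `(V ⊗ V) Y (V ⊗ V)†` over the unitary group of dimension `D ≥ 2` -/
lemma twirl_eq {p q : n} (hpq : p ≠ q) (Y : Matrix (n × n) (n × n) ℂ) :
    twirl Y = (((Fintype.card n : ℂ) * Y.trace - (swap * Y).trace) /
        ((Fintype.card n : ℂ) * ((Fintype.card n : ℂ) ^ 2 - 1))) • (1 : Matrix (n × n) (n × n) ℂ)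
      + (((Fintype.card n : ℂ) * (swap * Y).trace - Y.trace) /
        ((Fintype.card n : ℂ) * ((Fintype.card n : ℂ) ^ 2 - 1))) • swap := by
  have h := commutant (commutes_twirl Y) hpq
  set a := twirl Y (p, q) (p, q)
  set b := twirl Y (p, q) (q, p)
  set D : ℂ := (Fintype.card n : ℂ) with hD
  have hcard : 1 < Fintype.card n := Fintype.one_lt_card_iff.mpr ⟨p, q, hpq⟩
  have hD0 : D ≠ 0 := by rw [hD]; exact_mod_cast (by omega : Fintype.card n ≠ 0)
  have hD1 : D ^ 2 - 1 ≠ 0 := by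
    have h1 : (1 : ℝ) < Fintype.card n := by exact_mod_cast hcard
    have h2 : ((Fintype.card n : ℝ) ^ 2 - 1) ≠ 0 := by nlinarith
    rw [hD]
    exact_mod_cast h2
  have t1 : Y.trace = a * D ^ 2 + b * D := by
    rw [← trace_twirl Y, h, trace_add, trace_smul, trace_smul, trace_swap, trace_one,
      Fintype.card_prod, smul_eq_mul, smul_eq_mul]
    push_cast
    ring
  have t2 : (swap * Y).trace = a * D + b * D ^ 2 := by
    rw [← trace_swap_twirl Y, h, Matrix.mul_add, Matrix.mul_smul, Matrix.mul_smul, swap_mul_swap,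
      Matrix.mul_one, trace_add, trace_smul, trace_smul, trace_swap, trace_one,
      Fintype.card_prod, smul_eq_mul, smul_eq_mul]
    push_cast
    ring
  have ea : (D * Y.trace - (swap * Y).trace) / (D * (D ^ 2 - 1)) = a := by
    rw [t1, t2]; field_simp; ring
  have eb : (D * (swap * Y).trace - Y.trace) / (D * (D ^ 2 - 1)) = b := by
    rw [t1, t2]; field_simp; ring
  rw [ea, eb]
  exact h

end Twirl

section Moment

variable {d dE : ℕ} [NeZero dE]

/-- index set of the matrix units of `M_{d²}` -/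
abbrev P (d : ℕ) := (Fin 2 → Fin d) × (Fin 2 → Fin d)

/-- the coordinates of the identity -/
noncomputable def u (p : P d) : ℝ := if p.1 0 = p.2 0 ∧ p.1 1 = p.2 1 then 1 else 0

/-- the coordinates of the swap -/
noncomputable def sw (p : P d) : ℝ := if p.1 0 = p.2 1 ∧ p.1 1 = p.2 0 then 1 else 0

/-- matrix units tensored with the initial state of the environment -/
noncomputable def unitE (k l : Fin d) : Matrix (Fin d × Fin dE) (Fin d × Fin dE) ℂ :=
  single k l 1 ⊗ₖ single 0 0 1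

lemma unitE_apply (k l : Fin d) (x y : Fin d × Fin dE) :
    unitE k l x y = if k = x.1 ∧ l = y.1 ∧ x.2 = 0 ∧ y.2 = 0 then 1 else 0 := by
  simp only [unitE, kroneckerMap_apply, single_apply]
  by_cases h1 : k = x.1 <;> by_cases h2 : l = y.1 <;> by_cases h3 : x.2 = 0 <;>
    by_cases h4 : y.2 = 0 <;> simp [h1, h2, h3, h4, eq_comm]

lemma trace_unitE (k l : Fin d) : (unitE (dE := dE) k l).trace = if k = l then 1 else 0 := by
  rw [unitE, trace_kronecker, trace_single_eq_same, mul_one]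
  by_cases h : k = l
  · subst h; simp [trace_single_eq_same]
  · rw [trace_single_eq_of_ne _ _ _ h, if_neg h]

lemma trace_swap_kron {n : Type} [Fintype n] [DecidableEq n] (A B : Matrix n n ℂ) :
    (swap * (A ⊗ₖ B) : Matrix (n × n) (n × n) ℂ).trace = (A * B).trace := by
  rw [trace_swap_mul, Fintype.sum_prod_type_right]
  simp only [Matrix.trace, Matrix.diag, Matrix.mul_apply, kroneckerMap_apply]

lemma trace_unitE_mul (k l k' l' : Fin d) : (unitE (dE := dE) k l * unitE k' l').trace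
    = if k = l' ∧ l = k' then 1 else 0 := by
  rw [unitE, unitE, ← Matrix.mul_kronecker_mul, trace_kronecker]
  have h0 : (single (0 : Fin dE) (0 : Fin dE) (1 : ℂ) * single (0 : Fin dE) (0 : Fin dE) (1 : ℂ)).trace = 1 := by
    rw [single_mul_single_same, trace_single_eq_same, mul_one]
  rw [h0, mul_one]
  by_cases h1 : l = k'
  · subst h1
    rw [single_mul_single_same, mul_one]
    by_cases h2 : k = l'
    · subst h2; simp [trace_single_eq_same]
    · rw [trace_single_eq_of_ne _ _ _ h2]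
      simp [h2]
  · rw [single_mul_single_of_ne _ _ _ _ h1]
    simp [h1]

variable (d dE)

/-- the dimension `D = d dE` -/
noncomputable def DD : ℝ := (d : ℝ) * dE

/-- the moment matrix as a real matrix -/
noncomputable def Mr : Matrix (P d) (P d) ℝ := Matrix.of fun p q =>
  (DD d dE * u q - sw q) / (DD d dE * (DD d dE ^ 2 - 1)) * (dE ^ 2 * u p)
  + (DD d dE * sw q - u q) / (DD d dE * (DD d dE ^ 2 - 1)) * (dE * sw p)

variable {d dE}

lemma chan_single (V : unitaryGroup (Fin d × Fin dE) ℂ) (k l i j : Fin d) :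
    chan V (single k l 1) i j = ∑ e, ((V : Matrix (Fin d × Fin dE) (Fin d × Fin dE) ℂ) * unitE k l *
      (V : Matrix (Fin d × Fin dE) (Fin d × Fin dE) ℂ)ᴴ :
        Matrix (Fin d × Fin dE) (Fin d × Fin dE) ℂ) (i, e) (j, e) := rfl

lemma conj2_kron {n : Type} [Fintype n] [DecidableEq n] (V Y Z : Matrix n n ℂ) :
    conj2 V (Y ⊗ₖ Z) = (V * Y * Vᴴ) ⊗ₖ (V * Z * Vᴴ) := by
  rw [conj2, conjTranspose_kronecker, ← Matrix.mul_kronecker_mul, ← Matrix.mul_kronecker_mul]

lemma momentMatrix_two_apply (p q : P d) : momentMatrix d dE 2 p q =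
    ∑ e : Fin dE, ∑ e' : Fin dE, twirl (unitE (q.1 0) (q.2 0) ⊗ₖ unitE (q.1 1) (q.2 1))
      ((p.1 0, e), (p.1 1, e')) ((p.2 0, e), (p.2 1, e')) := by
  have h : ∀ V : unitaryGroup (Fin d × Fin dE) ℂ,
      ∏ s : Fin 2, chan V (single (q.1 s) (q.2 s) 1) (p.1 s) (p.2 s) =
      ∑ e : Fin dE, ∑ e' : Fin dE, conj2 (V : Matrix (Fin d × Fin dE) (Fin d × Fin dE) ℂ)
        (unitE (q.1 0) (q.2 0) ⊗ₖ unitE (q.1 1) (q.2 1)) ((p.1 0, e), (p.1 1, e'))
        ((p.2 0, e), (p.2 1, e')) := by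
    intro V
    rw [Fin.prod_univ_two, chan_single, chan_single, Finset.sum_mul_sum]
    refine Finset.sum_congr rfl fun e _ => Finset.sum_congr rfl fun e' _ => ?_
    rw [conj2_kron, kroneckerMap_apply]
  simp only [momentMatrix, Matrix.of_apply, h]
  rw [integral_finsetSum _ fun e _ => integrable_finsetSum _ fun e' _ => integrable_conj2 _ _ _]
  refine Finset.sum_congr rfl fun e _ => ?_
  rw [integral_finsetSum _ fun e' _ => integrable_conj2 _ _ _]
  rfl

lemma momentMatrix_two (hd : 2 ≤ d) (p q : P d) : momentMatrix d dE 2 p q = ((Mr d dE p q : ℝ) : ℂ) := by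
  have hne : ((⟨0, by omega⟩ : Fin d), (0 : Fin dE)) ≠ ((⟨1, by omega⟩ : Fin d), (0 : Fin dE)) := by
    intro h
    have := congrArg (fun x => (Prod.fst x).val) h
    simp at this
  rw [momentMatrix_two_apply]
  simp only [twirl_eq hne]
  rw [trace_swap_kron, trace_unitE_mul, trace_kronecker, trace_unitE, trace_unitE]
  simp only [Matrix.add_apply, Matrix.smul_apply, smul_eq_mul, Finset.sum_add_distrib,
    ← Finset.mul_sum]
  have h1 : ∑ e : Fin dE, ∑ e' : Fin dE, (1 : Matrix ((Fin d × Fin dE) × (Fin d × Fin dE)) _ ℂ)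
      ((p.1 0, e), (p.1 1, e')) ((p.2 0, e), (p.2 1, e')) = ((dE ^ 2 * u p : ℝ) : ℂ) := by
    simp only [Matrix.one_apply, Prod.mk.injEq, and_true, u]
    by_cases h : p.1 0 = p.2 0 ∧ p.1 1 = p.2 1
    · simp [h]; ring
    · simp [h]
  have h2 : ∑ e : Fin dE, ∑ e' : Fin dE, (swap : Matrix ((Fin d × Fin dE) × (Fin d × Fin dE)) _ ℂ)
      ((p.1 0, e), (p.1 1, e')) ((p.2 0, e), (p.2 1, e')) = ((dE * sw p : ℝ) : ℂ) := by
    simp only [swap, Matrix.of_apply, Prod.mk.injEq, sw]
    by_cases h : p.1 0 = p.2 1 ∧ p.1 1 = p.2 0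
    · have : ∀ e e' : Fin dE, (if (p.1 0 = p.2 1 ∧ e = e') ∧ p.1 1 = p.2 0 ∧ e' = e then (1 : ℂ) else 0)
          = if e = e' then 1 else 0 := by
        intro e e'
        by_cases he : e = e'
        · simp [h, he]
        · simp [he]
      simp only [this]
      simp [h]
    · have : ∀ e e' : Fin dE, (if (p.1 0 = p.2 1 ∧ e = e') ∧ p.1 1 = p.2 0 ∧ e' = e then (1 : ℂ) else 0)
          = 0 := by
        intro e e'
        rw [if_neg]
        rintro ⟨⟨a, _⟩, b, _⟩
        exact h ⟨a, b⟩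
      simp only [this]
      simp [h]
  rw [h1, h2]
  have hu : (if q.1 0 = q.2 0 then (1 : ℂ) else 0) * (if q.1 1 = q.2 1 then 1 else 0) = ((u q : ℝ) : ℂ) := by
    by_cases a : q.1 0 = q.2 0 <;> by_cases b : q.1 1 = q.2 1 <;> simp [u, a, b]
  have hs : (if q.1 0 = q.2 1 ∧ q.2 0 = q.1 1 then (1 : ℂ) else 0) = ((sw q : ℝ) : ℂ) := by
    by_cases a : q.1 0 = q.2 1 <;> by_cases b : q.1 1 = q.2 0 <;> simp [sw, a, b, eq_comm]
  rw [hu, hs]
  simp only [Mr, Matrix.of_apply, DD, Fintype.card_prod, Fintype.card_fin]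
  push_cast
  ring

/-! ### real part of the computation -/

/-- the component of the swap orthogonal to the identity -/
noncomputable def w (p : P d) : ℝ := sw p - u p / d

lemma sum_eq (f : P d → ℝ) : ∑ p, f p = ∑ a : Fin d, ∑ b : Fin d, ∑ c : Fin d, ∑ e : Fin d,
    f (![a, b], ![c, e]) := by
  rw [Fintype.sum_prod_type]
  have h : ∀ g : (Fin 2 → Fin d) → ℝ, ∑ x, g x = ∑ a : Fin d, ∑ b : Fin d, g ![a, b] := by
    intro g
    rw [← Fintype.sum_prod_type']
    exact Fintype.sum_equiv (finTwoArrowEquiv (Fin d)) _ _ (fun x => by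
      congr 1
      ext i
      fin_cases i <;> rfl)
  rw [h]
  refine Finset.sum_congr rfl fun a _ => Finset.sum_congr rfl fun b _ => ?_
  rw [h]

lemma sum_uu : ∑ p : P d, u p * u p = (d : ℝ) ^ 2 := by
  rw [sum_eq]
  have : ∀ a b c e : Fin d, u (![a, b], ![c, e]) * u (![a, b], ![c, e])
      = (if a = c then 1 else 0) * (if b = e then 1 else 0) := by
    intro a b c e
    by_cases h1 : a = c <;> by_cases h2 : b = e <;> simp [u, h1, h2]
  simp only [this]
  simp
  ring

lemma sum_ss : ∑ p : P d, sw p * sw p = (d : ℝ) ^ 2 := by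
  rw [sum_eq]
  have : ∀ a b c e : Fin d, sw (![a, b], ![c, e]) * sw (![a, b], ![c, e])
      = (if b = c then 1 else 0) * (if a = e then 1 else 0) := by
    intro a b c e
    by_cases h1 : b = c <;> by_cases h2 : a = e <;> simp [sw, h1, h2]
  simp only [this]
  simp
  ring

lemma sum_us : ∑ p : P d, u p * sw p = (d : ℝ) := by
  rw [sum_eq]
  have : ∀ a b c e : Fin d, u (![a, b], ![c, e]) * sw (![a, b], ![c, e])
      = (if a = c then 1 else 0) * (if b = c then 1 else 0) * (if a = e then 1 else 0) := by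
    intro a b c e
    by_cases h1 : a = c <;> by_cases h2 : b = c <;> by_cases h3 : a = e <;> by_cases h4 : b = e <;>
      simp_all [u, sw]
  simp only [this]
  simp

variable (hd : 2 ≤ d)
include hd

lemma sum_uw : ∑ p : P d, u p * w p = 0 := by
  have hd0 : (d : ℝ) ≠ 0 := by exact_mod_cast (by omega : d ≠ 0)
  have h : ∀ p : P d, u p * w p = u p * sw p - (u p * u p) / d := fun p => by simp only [w]; ring
  simp only [h]
  rw [Finset.sum_sub_distrib, ← Finset.sum_div, sum_us, sum_uu]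
  field_simp
  ring

lemma sum_ww : ∑ p : P d, w p * w p = (d : ℝ) ^ 2 - 1 := by
  have hd0 : (d : ℝ) ≠ 0 := by exact_mod_cast (by omega : d ≠ 0)
  have h : ∀ p : P d, w p * w p = sw p * sw p - (2 / d) * (u p * sw p) + (u p * u p) / d ^ 2 :=
    fun p => by simp only [w]; field_simp; ring
  simp only [h]
  rw [Finset.sum_add_distrib, Finset.sum_sub_distrib, ← Finset.sum_div, ← Finset.mul_sum, sum_us,
    sum_uu, sum_ss]
  field_simp
  ring

omit hd in
/-- the contraction factor -/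
noncomputable def θ (d dE : ℕ) : ℝ := ((d : ℝ) ^ 2 - 1) * dE / (DD d dE ^ 2 - 1)

omit hd in
/-- the coefficient of `|w⟩⟨u|` -/
noncomputable def β (d dE : ℕ) : ℝ := ((dE : ℝ) - 1) / (d * (DD d dE ^ 2 - 1))

omit hd in
lemma DD_pos (hd : 2 ≤ d) (hE : 1 ≤ dE) : 2 ≤ DD d dE := by
  have h1 : (2 : ℝ) ≤ d := by exact_mod_cast hd
  have h2 : (1 : ℝ) ≤ dE := by exact_mod_cast hE
  unfold DD
  nlinarith

lemma Mr_eq (hE : 1 ≤ dE) (p q : P d) : Mr d dE p q =
    1 / (d : ℝ) ^ 2 * (u p * u q) + β d dE * (w p * u q) + θ d dE / ((d : ℝ) ^ 2 - 1) * (w p * w q) := by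
  have h1 : (2 : ℝ) ≤ d := by exact_mod_cast hd
  have h2 : (1 : ℝ) ≤ dE := by exact_mod_cast hE
  have hD := DD_pos hd hE
  have e1 : (d : ℝ) ≠ 0 := by positivity
  have e2 : (dE : ℝ) ≠ 0 := by positivity
  have e3 : DD d dE ^ 2 - 1 ≠ 0 := by nlinarith
  have e4 : (d : ℝ) ^ 2 - 1 ≠ 0 := by nlinarith
  simp only [Mr, Matrix.of_apply, β, θ, w]
  have e5 : DD d dE = d * dE := rfl
  have e6 : (d : ℝ) ^ 2 * (dE : ℝ) ^ 2 - 1 ≠ 0 := by rw [← mul_pow, ← e5]; exact e3
  rw [e5, mul_pow]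
  field_simp
  ring

omit hd in
/-- partial geometric sums -/
noncomputable def gs (x : ℝ) (k : ℕ) : ℝ := ∑ j ∈ Finset.range k, x ^ j

lemma Mr_pow (hE : 1 ≤ dE) (k : ℕ) (p q : P d) : (Mr d dE ^ (k + 1)) p q =
    1 / (d : ℝ) ^ 2 * (u p * u q) + β d dE * gs (θ d dE) (k + 1) * (w p * u q)
      + θ d dE ^ (k + 1) / ((d : ℝ) ^ 2 - 1) * (w p * w q) := by
  have h1 : (2 : ℝ) ≤ d := by exact_mod_cast hd
  have e1 : (d : ℝ) ≠ 0 := by positivity
  have e4 : (d : ℝ) ^ 2 - 1 ≠ 0 := by nlinarith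
  induction k generalizing p q with
  | zero => simp [Mr_eq hd hE, gs]
  | succ k ih =>
    rw [pow_succ', Matrix.mul_apply]
    have h : ∀ r, Mr d dE p r * (Mr d dE ^ (k + 1)) r q =
        (u r * u r) * ((1 / (d : ℝ) ^ 2 * u p + β d dE * w p) * (1 / (d : ℝ) ^ 2 * u q)) +
        (u r * w r) * ((1 / (d : ℝ) ^ 2 * u p + β d dE * w p) * (β d dE * gs (θ d dE) (k + 1) * u q
            + θ d dE ^ (k + 1) / ((d : ℝ) ^ 2 - 1) * w q)
          + θ d dE / ((d : ℝ) ^ 2 - 1) * w p * (1 / (d : ℝ) ^ 2 * u q)) +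
        (w r * w r) * (θ d dE / ((d : ℝ) ^ 2 - 1) * w p * (β d dE * gs (θ d dE) (k + 1) * u q
            + θ d dE ^ (k + 1) / ((d : ℝ) ^ 2 - 1) * w q)) := by
      intro r
      rw [ih, Mr_eq hd hE]
      ring
    simp only [h]
    rw [Finset.sum_add_distrib, Finset.sum_add_distrib, ← Finset.sum_mul, ← Finset.sum_mul,
      ← Finset.sum_mul, sum_uu, sum_uw hd, sum_ww hd]
    have hgs : gs (θ d dE) (k + 1 + 1) = 1 + θ d dE * gs (θ d dE) (k + 1) := by
      simp only [gs]
      rw [Finset.sum_range_succ', Finset.mul_sum]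
      simp only [pow_succ']
      ring
    rw [hgs]
    field_simp
    ring

/-- closed formula for `N_{2,k}` -/
lemma N_two (hE : 1 ≤ dE) (k : ℕ) : N d dE 2 (k + 1) =
    1 + β d dE ^ 2 * gs (θ d dE) (k + 1) ^ 2 * ((d : ℝ) ^ 2 - 1) * (d : ℝ) ^ 2
      + θ d dE ^ (2 * (k + 1)) := by
  have h1 : (2 : ℝ) ≤ d := by exact_mod_cast hd
  have e1 : (d : ℝ) ≠ 0 := by positivity
  have e4 : (d : ℝ) ^ 2 - 1 ≠ 0 := by nlinarith
  have hmap : momentMatrix d dE 2 = (Mr d dE).map (algebraMap ℝ ℂ) := by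
    ext p q
    exact momentMatrix_two hd p q
  have hpow : momentMatrix d dE 2 ^ (k + 1) = (Mr d dE ^ (k + 1)).map (algebraMap ℝ ℂ) := by
    rw [hmap, Matrix.map_pow]
  have hN : N d dE 2 (k + 1) = ∑ p, ∑ q, ((Mr d dE ^ (k + 1)) p q) ^ 2 := by
    unfold N
    rw [hpow]
    refine Finset.sum_congr rfl fun p _ => Finset.sum_congr rfl fun q _ => ?_
    rw [Matrix.map_apply]
    simp
  rw [hN]
  set A : ℝ := 1 / (d : ℝ) ^ 2 with hA
  set B : ℝ := β d dE * gs (θ d dE) (k + 1) with hB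
  set C : ℝ := θ d dE ^ (k + 1) / ((d : ℝ) ^ 2 - 1) with hC
  have h : ∀ p q : P d, ((Mr d dE ^ (k + 1)) p q) ^ 2 =
      (u q * u q) * ((u p * u p) * A ^ 2 + (u p * w p) * (2 * A * B) + (w p * w p) * B ^ 2) +
      (u q * w q) * ((u p * w p) * (2 * A * C) + (w p * w p) * (2 * B * C)) +
      (w q * w q) * ((w p * w p) * C ^ 2) := by
    intro p q
    rw [Mr_pow hd hE]
    ring
  simp only [h]
  have h2 : ∀ p : P d, ∑ q : P d, ((u q * u q) * ((u p * u p) * A ^ 2 + (u p * w p) * (2 * A * B) + (w p * w p) * B ^ 2) +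
      (u q * w q) * ((u p * w p) * (2 * A * C) + (w p * w p) * (2 * B * C)) +
      (w q * w q) * ((w p * w p) * C ^ 2)) =
      (u p * u p) * ((d : ℝ) ^ 2 * A ^ 2) + (u p * w p) * ((d : ℝ) ^ 2 * (2 * A * B))
        + (w p * w p) * ((d : ℝ) ^ 2 * B ^ 2 + ((d : ℝ) ^ 2 - 1) * C ^ 2) := by
    intro p
    rw [Finset.sum_add_distrib, Finset.sum_add_distrib, ← Finset.sum_mul, ← Finset.sum_mul,
      ← Finset.sum_mul, sum_uu, sum_uw hd, sum_ww hd]
    ring
  simp only [h2]
  rw [Finset.sum_add_distrib, Finset.sum_add_distrib, ← Finset.sum_mul, ← Finset.sum_mul,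
    ← Finset.sum_mul, sum_uu, sum_uw hd, sum_ww hd, hA, hB, hC]
  field_simp
  ring

lemma θ_pos (hE : 2 ≤ dE) : 0 < θ d dE := by
  have h1 : (2 : ℝ) ≤ d := by exact_mod_cast hd
  have h2 : (2 : ℝ) ≤ dE := by exact_mod_cast hE
  have hD := DD_pos hd (by omega : 1 ≤ dE)
  have e3 : 0 < DD d dE ^ 2 - 1 := by nlinarith
  have e4 : 0 < (d : ℝ) ^ 2 - 1 := by nlinarith
  unfold θ
  positivity

lemma θ_lt_one (hE : 2 ≤ dE) : θ d dE < 1 := by
  have h1 : (2 : ℝ) ≤ d := by exact_mod_cast hd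
  have h2 : (2 : ℝ) ≤ dE := by exact_mod_cast hE
  have hD := DD_pos hd (by omega : 1 ≤ dE)
  have e3 : 0 < DD d dE ^ 2 - 1 := by nlinarith
  unfold θ
  rw [div_lt_one e3]
  have e5 : DD d dE = d * dE := rfl
  rw [e5]
  nlinarith [mul_pos (by positivity : (0 : ℝ) < d) (by positivity : (0 : ℝ) < d),
    mul_nonneg (by nlinarith : (0 : ℝ) ≤ (d : ℝ) ^ 2 * dE) (by linarith : (0 : ℝ) ≤ (dE : ℝ) - 1)]

lemma β_pos (hE : 2 ≤ dE) : 0 < β d dE := by
  have h1 : (2 : ℝ) ≤ d := by exact_mod_cast hd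
  have h2 : (2 : ℝ) ≤ dE := by exact_mod_cast hE
  have hD := DD_pos hd (by omega : 1 ≤ dE)
  have e3 : 0 < DD d dE ^ 2 - 1 := by nlinarith
  unfold β
  have : 0 < (dE : ℝ) - 1 := by linarith
  positivity

end Moment

/-- **Disproof of the monotonicity in `k`.** For all `d, dE ≥ 2` the squared norms
`N_{2,k}(d, dE)` are strictly increasing in `k` for all sufficiently large `k`. -/
theorem result (d dE : ℕ) [NeZero dE] (hd : 2 ≤ d) (hE : 2 ≤ dE) :
    ∃ k₀ : ℕ, ∀ k : ℕ, k₀ ≤ k → N d dE 2 k < N d dE 2 (k + 1) := by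
  have h1 : (2 : ℝ) ≤ d := by exact_mod_cast hd
  have e4 : 0 < (d : ℝ) ^ 2 - 1 := by nlinarith
  have hβ := β_pos hd hE
  have hθ0 := θ_pos hd hE
  have hθ1 := θ_lt_one hd hE
  set c : ℝ := β d dE ^ 2 * ((d : ℝ) ^ 2 - 1) * (d : ℝ) ^ 2 with hc
  have hc0 : 0 < c := by positivity
  obtain ⟨m, hm⟩ := exists_pow_lt_of_lt_one (show 0 < 2 * c by linarith) hθ1
  refine ⟨m + 1, fun k hk => ?_⟩
  obtain ⟨j, rfl⟩ : ∃ j, k = j + 1 := ⟨k - 1, by omega⟩
  rw [N_two hd (by omega), N_two hd (by omega)]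
  have hj : θ d dE ^ (j + 1) < 2 * c :=
    lt_of_le_of_lt (pow_le_pow_of_le_one hθ0.le hθ1.le (by omega)) hm
  have hgs : gs (θ d dE) (j + 1 + 1) = gs (θ d dE) (j + 1) + θ d dE ^ (j + 1) := by
    simp only [gs]
    rw [Finset.sum_range_succ]
  have hgs1 : 1 ≤ gs (θ d dE) (j + 1) := by
    simp only [gs]
    rw [Finset.sum_range_succ']
    have : 0 ≤ ∑ i ∈ Finset.range j, θ d dE ^ (i + 1) :=
      Finset.sum_nonneg fun i _ => by positivity
    simp
    exact this
  have hpos : 0 < θ d dE ^ (j + 1) := by positivity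
  rw [hgs]
  set x := θ d dE ^ (j + 1) with hx
  have hx2 : θ d dE ^ (2 * (j + 1)) = x ^ 2 := by rw [hx, ← pow_mul]; ring_nf
  have hx3 : 0 ≤ θ d dE ^ (2 * (j + 1 + 1)) := by positivity
  rw [hx2]
  set g := gs (θ d dE) (j + 1)
  have key : x ^ 2 < c * (2 * g * x) := by
    have : x * x < x * (2 * c) := by gcongr
    have h2 : x * (2 * c) ≤ c * (2 * g * x) := by
      have : c * x ≤ c * x * g := by
        have hcx : 0 ≤ c * x := by positivity
        nlinarith
      nlinarith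
    nlinarith
  have key2 : 0 ≤ c * x ^ 2 := by positivity
  have e5 : β d dE ^ 2 * g ^ 2 * ((d : ℝ) ^ 2 - 1) * (d : ℝ) ^ 2 = c * g ^ 2 := by rw [hc]; ring
  have e6 : β d dE ^ 2 * (g + x) ^ 2 * ((d : ℝ) ^ 2 - 1) * (d : ℝ) ^ 2 = c * (g + x) ^ 2 := by
    rw [hc]; ring
  rw [e5, e6]
  nlinarith

end Pool.Agent.Results.MP_a4cf75_mp.NotMonotone
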